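import Pool.Agent.X324.LE.Main

/-!
# Effective cones of curves on very general ample divisors of `P^1 × P^m`

The question MP_f4858a_ag asks whether for every smooth projective variety `Y` of dimension at least
`4` and every ample divisor `A` there are `d₀` and `k₀ ≥ 1` such that for `d ≥ d₀` and a very general
`X ∈ |d A|` the map `i_*` induces an isomorphism of the effective cones in the dimensions `k ≤ k₀`.
The answer is no: let `Y = P^1 × P^m`, `m ≥ 3`, and let `A = O(a, b)` be any ample divisor. If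
`d a ≥ m` then a general `X ∈ |d A|` is finite over `P^m`, and each curve `C` in `X` satisfies the
inequality `H_1 · C ≤ d b (H_2 · C)`. So the class of `P^1 × {y}` is not in the image of `Eff_1(X)`,
and `i_*` does not induce an isomorphism of the effective cones in dimension `1`.

The definitions are in `Pool.Agent.X324.LE.Defs`.
-/

set_option autoImplicit false

namespace Pool.Agent.Results.MP_f4858a_ag.HypersurfacesFiniteOverSpace

open Pool.Agent.X324.LE

/-- Let `Y = P^1 × P^m`, `m ≥ 3`, so that `dim Y ≥ 4`, and let `A = O(a, b)` be an ample divisor.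
For every `d` with `d a ≥ m` the map `i_*` does not induce an isomorphism of effective cones in
dimension `1` for all `X` in a nonempty open subset of `|d A|`. In particular, there is no `d₀` such
that for all `d ≥ d₀` the map `i_*` induces an isomorphism of effective cones in dimension `1` for a
very general `X ∈ |d A|`. -/
theorem result (m : ℕ) (_hm : 3 ≤ m) (a b : ℕ) (ha : 1 ≤ a) (_hb : 1 ≤ b) :
    (∀ d : ℕ, m ≤ d * a → ∃ Ψ : MvPolynomial (Fin (d * a + 1) × Mon m (d * b)) ℂ, Ψ ≠ 0 ∧
      ∀ F : Form m (d * a) (d * b), MvPolynomial.eval F Ψ ≠ 0 → ¬ InducesIso (hypersurface F)) ∧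
    ¬ ∃ d₀ : ℕ, ∀ d : ℕ, d₀ ≤ d →
      VeryGeneral fun F : Form m (d * a) (d * b) => InducesIso (hypersurface F) := by
  have h1 : ∀ d : ℕ, m ≤ d * a → ∃ Ψ : MvPolynomial (Fin (d * a + 1) × Mon m (d * b)) ℂ, Ψ ≠ 0 ∧
      ∀ F : Form m (d * a) (d * b), MvPolynomial.eval F Ψ ≠ 0 →
        ¬ InducesIso (hypersurface F) := by
    intro d hd
    obtain ⟨Ψ, hΨ, h⟩ := exists_disc (q := d * b) hd
    exact ⟨Ψ, hΨ, fun F hF => not_induces F (h F hF)⟩
  refine ⟨h1, ?_⟩
  rintro ⟨d₀, h⟩
  have h2 : m ≤ (d₀ + m) * a := by nlinarith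
  obtain ⟨Ψ, hΨ, h3⟩ := h1 (d₀ + m) h2
  obtain ⟨F, hF, hF2⟩ := (h (d₀ + m) (by omega)).exists_and hΨ
  exact h3 F hF2 hF

end Pool.Agent.Results.MP_f4858a_ag.HypersurfacesFiniteOverSpace
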